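import Mathlib
import Pool.Agent.W39.AN.Main

/-!
# Which correlations give Andrica's inequality? (helper39)

In Cramer's random model of the primes the events `n in S` have probability `1 / log n` and are
independent.  A *model of level* `K` is a random set in which `n` has probability `1 / log n` and only
correlations of bounded order are prescribed: any `K n` of the events with indices `≥ n` are
independent.

For `S = {q_0 < q_1 < ...}` Andrica's inequality is `sqrt q_{i+1} - sqrt q_i < 1`.  Correlations of
order four force it: `sqrt q_{i+1} - sqrt q_i` tends to `0` almost surely in every model of level at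
least four.  Correlations of order three do not: in some model of level three the upper limit of
`sqrt q_{i+1} - sqrt q_i` is almost surely infinite.
-/

set_option autoImplicit false

namespace Pool.Agent.Results.MP_82fd4a_nt.CorrelationsOfOrderFour

open MeasureTheory Filter Topology
open Pool.Agent.W151.KW Pool.Agent.W39.AN

theorem result :
    -- level four suffices: `sqrt q_{i+1} - sqrt q_i → 0` almost surely in every model
    (∀ (Ω : Type) [MeasurableSpace Ω] (μ : Measure Ω) [IsProbabilityMeasure μ] (K : ℕ → ℕ)
      (A : ℕ → Set Ω), (∃ n, 4 ≤ K n) → IsModel μ K A →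
      ∀ᵐ ω ∂μ, {n | ω ∈ A n}.Infinite ∧ Tendsto (dsq {n | ω ∈ A n}) atTop (𝓝 0)) ∧
    -- level three does not: some model has almost surely `limsup (sqrt q_{i+1} - sqrt q_i) = ∞`
    (∀ K : ℕ → ℕ, (∀ n, K n ≤ 3) →
      ∃ (Ω : Type) (_ : MeasurableSpace Ω) (μ : Measure Ω) (A : ℕ → Set Ω), IsProbabilityMeasure μ ∧
        IsModel μ K A ∧ ∀ᵐ ω ∂μ, {n | ω ∈ A n}.Infinite ∧
          ∀ C : ℝ, ∃ᶠ i : ℕ in atTop, C ≤ dsq {n | ω ∈ A n} i) := by
  refine ⟨?_, ?_⟩
  · intro Ω _ μ _ K A hK hM
    exact upper4 hM hK
  · intro K hK
    obtain ⟨μ, A, hμ, hM, hω⟩ := lower3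
    exact ⟨_, inferInstance, μ, A, hμ, hM.mono hK, hω⟩

end Pool.Agent.Results.MP_82fd4a_nt.CorrelationsOfOrderFour
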